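import Pool.Agent.Q230.WL.Hard

/-!
# Pareto optimal Nash equilibria of three-player win-lose games

Deciding whether a three-player win-lose game, given as a table, has a Pareto optimal Nash
equilibrium is `∃ℝ`-hard.
-/

namespace Pool.Agent.Results.MP_d68d66_lc.ParetoHard

open Pool.Agent.NPC Pool.Agent.NPC.ER Pool.Agent.Q230.WL

/-- PONE-WL is `∃ℝ`-hard. -/
theorem result : ERHard (lang PONE) := hard

end Pool.Agent.Results.MP_d68d66_lc.ParetoHard
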